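import Pool.Agent.W201.NT.StmT

/-!
# Project NT, part DU: over a field singular cohomology is dual to singular homology
-/

set_option autoImplicit false

open Finsupp

namespace Pool.Agent.W978.NT.DU

open Pool.Agent.Helper381 Pool.Agent.W201.NT

section gen

variable (k : Type) [Field k] (C : ℕ → Type) [∀ n, AddCommGroup (C n)] [∀ n, Module k (C n)]
  (d : ∀ n, C (n + 1) →ₗ[k] C n) (D : ℕ → Type) [∀ n, AddCommGroup (D n)] [∀ n, Module k (D n)]
  (δ : ∀ n, D n →ₗ[k] D (n + 1)) (L : ∀ n, D n ≃ₗ[k] Module.Dual k (C n))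
  (hL : ∀ n f, L (n + 1) (δ n f) = (L n f).comp (d n))

/-- the boundaries inside the cycles -/
abbrev BC (n : ℕ) : Submodule k ↥(gcyc k C d n) :=
  (LinearMap.range (d n)).comap (gcyc k C d n).subtype

theorem bdr_le (hdd : ∀ n c, d n (d (n + 1) c) = 0) (n : ℕ) :
    LinearMap.range (d n) ≤ gcyc k C d n := by
  rintro _ ⟨c, rfl⟩
  cases n with
  | zero => trivial
  | succ n => exact hdd n c

include hL in
theorem RR_mem (n : ℕ) (f : ↥(LinearMap.ker (δ n))) :
    (((gcyc k C d n).subtype.dualMap).comp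
    ((L n).toLinearMap.comp (LinearMap.ker (δ n)).subtype)) f ∈ (BC k C d n).dualAnnihilator := by
  rw [Submodule.mem_dualAnnihilator]
  intro z hz
  obtain ⟨c, hc⟩ := hz
  change L n f.1 z.1 = 0
  have h1 := hL n f.1
  have h2 : δ n f.1 = 0 := f.2
  rw [h2, map_zero] at h1
  have h3 := LinearMap.congr_fun h1 c
  have hc' : d n c = z.1 := hc
  rw [← hc']
  exact h3.symm

/-- the restriction map -/
noncomputable def RR (n : ℕ) : ↥(LinearMap.ker (δ n)) →ₗ[k] ↥((BC k C d n).dualAnnihilator) :=
  LinearMap.codRestrict _ (((gcyc k C d n).subtype.dualMap).comp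
    ((L n).toLinearMap.comp (LinearMap.ker (δ n)).subtype)) (RR_mem k C d D δ L hL n)

theorem RR_apply (n : ℕ) (f : ↥(LinearMap.ker (δ n))) (z : ↥(gcyc k C d n)) :
    (RR k C d D δ L hL n f : Module.Dual k ↥(gcyc k C d n)) z = L n f.1 z.1 := rfl

theorem RR_surj (hdd : ∀ n c, d n (d (n + 1) c) = 0) (n : ℕ) :
    Function.Surjective (RR k C d D δ L hL n) := by
  rintro ⟨g, hg⟩
  obtain ⟨F, hF⟩ := LinearMap.exists_extend g
  have hz : δ n ((L n).symm F) = 0 := by
    apply (L (n + 1)).injective
    rw [hL, LinearEquiv.apply_symm_apply, map_zero]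
    refine LinearMap.ext fun c => ?_
    have h1 : d n c ∈ gcyc k C d n := bdr_le k C d hdd n ⟨c, rfl⟩
    have h2 := LinearMap.congr_fun hF ⟨d n c, h1⟩
    have h3 : g ⟨d n c, h1⟩ = 0 := by
      rw [Submodule.mem_dualAnnihilator] at hg
      exact hg _ ⟨c, rfl⟩
    rw [h3] at h2
    exact h2
  refine ⟨⟨(L n).symm F, hz⟩, ?_⟩
  apply Subtype.ext
  refine LinearMap.ext fun z => ?_
  rw [RR_apply]
  simp only
  rw [LinearEquiv.apply_symm_apply]
  exact LinearMap.congr_fun hF z

theorem RR_ker (n : ℕ) : LinearMap.ker (RR k C d D δ L hL n) =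
    (cobound k D δ n).comap (LinearMap.ker (δ n)).subtype := by
  ext f
  rw [LinearMap.mem_ker, Submodule.mem_comap]
  have e : RR k C d D δ L hL n f = 0 ↔ ∀ z ∈ gcyc k C d n, L n f.1 z = 0 := by
    constructor
    · intro h z hz
      have h1 := congrArg (fun g : ↥((BC k C d n).dualAnnihilator) =>
        (g : Module.Dual k ↥(gcyc k C d n)) ⟨z, hz⟩) h
      exact h1
    · intro h
      apply Subtype.ext
      refine LinearMap.ext fun z => ?_
      exact h z.1 z.2
  rw [e]
  cases n with
  | zero =>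
    constructor
    · intro h
      have : L 0 f.1 = 0 := LinearMap.ext fun z => h z trivial
      have h2 := (L 0).map_eq_zero_iff.1 this
      exact h2
    · intro h z _
      have h2 : f.1 = 0 := h
      rw [h2, map_zero]
      rfl
  | succ n =>
    constructor
    · intro h
      have h1 : L (n + 1) f.1 ∈ (LinearMap.ker (d n)).dualAnnihilator := by
        rw [Submodule.mem_dualAnnihilator]
        exact fun z hz => h z hz
      rw [← LinearMap.range_dualMap_eq_dualAnnihilator_ker] at h1
      obtain ⟨G, hG⟩ := h1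
      refine ⟨(L n).symm G, ?_⟩
      apply (L (n + 1)).injective
      rw [hL, LinearEquiv.apply_symm_apply]
      exact hG
    · rintro ⟨g, hg⟩ z hz
      have hg' : δ n g = f.1 := hg
      rw [← hg', hL]
      have hz' : d n z = 0 := hz
      rw [LinearMap.comp_apply, hz', map_zero]

/-- the map to the dual of the homology -/
noncomputable def RQ (n : ℕ) : ↥(LinearMap.ker (δ n)) →ₗ[k] Module.Dual k (GH k C d n) :=
  ((BC k C d n).dualQuotEquivDualAnnihilator.symm).toLinearMap.comp (RR k C d D δ L hL n)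

theorem RQ_surj (hdd : ∀ n c, d n (d (n + 1) c) = 0) (n : ℕ) :
    Function.Surjective (RQ k C d D δ L hL n) := by
  intro φ
  obtain ⟨f, hf⟩ := RR_surj k C d D δ L hL hdd n ((BC k C d n).dualQuotEquivDualAnnihilator φ)
  refine ⟨f, ?_⟩
  change (BC k C d n).dualQuotEquivDualAnnihilator.symm (RR k C d D δ L hL n f) = φ
  rw [hf, LinearEquiv.symm_apply_apply]

theorem RQ_ker (n : ℕ) : LinearMap.ker (RQ k C d D δ L hL n) =
    (cobound k D δ n).comap (LinearMap.ker (δ n)).subtype := by
  rw [← RR_ker k C d D δ L hL n]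
  ext f
  rw [LinearMap.mem_ker, LinearMap.mem_ker]
  exact (BC k C d n).dualQuotEquivDualAnnihilator.symm.map_eq_zero_iff

include hL in
theorem gen (hdd : ∀ n c, d n (d (n + 1) c) = 0) (n : ℕ) :
    Nonempty (Coh k D δ n ≃ₗ[k] Module.Dual k (GH k C d n)) :=
  ⟨(Submodule.quotEquivOfEq _ _ (RQ_ker k C d D δ L hL n).symm).trans
    ((RQ k C d D δ L hL n).quotKerEquivOfSurjective (RQ_surj k C d D δ L hL hdd n))⟩

end gen

section

variable (k : Type) [Field k] (X : Type) [TopologicalSpace X]

/-- functions on the simplices are the functionals on the chains -/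
noncomputable def LL (n : ℕ) : (Sing X n → k) ≃ₗ[k] Module.Dual k (Sing X n →₀ k) :=
  Finsupp.llift k k k (Sing X n)

theorem LL_single (n : ℕ) (f : Sing X n → k) (σ : Sing X n) : LL k X n f (single σ 1) = f σ := by
  have h := congrFun ((LL k X n).symm_apply_apply f) σ
  exact h

theorem LL_altd (n : ℕ) (f : Sing X n → k) :
    LL k X (n + 1) (altd k (sface (X := X)) n f) = (LL k X n f).comp (bdR k X n) := by
  refine Finsupp.lhom_ext' fun σ => LinearMap.ext_ring ?_
  simp only [LinearMap.comp_apply, Finsupp.lsingle_apply]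
  rw [bdR_single, LL_single, map_sum, altd_apply]
  refine Finset.sum_congr rfl fun i _ => ?_
  rw [map_smul, LL_single, smul_eq_mul]

theorem bdR_bdR (n : ℕ) (c : Sing X (n + 2) →₀ k) : bdR k X n (bdR k X (n + 1) c) = 0 := by
  rw [← Module.forall_dual_apply_eq_zero_iff k]
  intro F
  obtain ⟨f, rfl⟩ := (LL k X n).surjective F
  have h1 := LL_altd k X n f
  have h2 := LL_altd k X (n + 1) (altd k (sface (X := X)) n f)
  rw [altd_altd _ (fun n i j σ h => sface_sface n i j σ h), map_zero, h1] at h2
  have := LinearMap.congr_fun h2 c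
  simpa using this.symm

end

theorem main : S_DU := by
  intro k _ X _ n
  exact gen k (fun n => Sing X n →₀ k) (bdR k X) (fun n => Sing X n → k)
    (fun n => altd k (sface (X := X)) n) (LL k X) (LL_altd k X) (bdR_bdR k X) n

end Pool.Agent.W978.NT.DU
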